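import Pool.Agent.Lib.MP_5349a4_pr.M.Iface3
import Pool.Agent.Lib.MP_5349a4_pr.M.Base

/-!
Module POND (9.1): the ponds of the invasion, deterministic part.
-/

set_option autoImplicit false
open MeasureTheory Set
open scoped ENNReal NNReal

namespace Pool.Agent.Lib.MP_5349a4_pr.H96

open Pool.Agent.Lib.MP_5349a4_pr

theorem tsum_sub {α : Type} (T : Finset α) (S : Set α) (hS : S ⊆ (T : Set α)) (g : α → ℝ≥0∞) :
    ∑' p : S, g p = ∑ p ∈ T, ind (p ∈ S) * g p := by
  rw [tsum_subtype S g, tsum_eq_sum (s := T)]
  · refine Finset.sum_congr rfl fun p _ => ?_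
    by_cases hp : p ∈ S
    · rw [Set.indicator_of_mem hp, ind_of hp, one_mul]
    · rw [Set.indicator_of_notMem hp, ind_not hp, zero_mul]
  · intro p hp
    exact Set.indicator_of_notMem (fun h => hp (hS h)) _

section
variable {d : ℕ} {P : Set (Eu d)} {o : Eu d}

theorem inv_succ (k : ℕ) : inv P o (k + 1) = inv P o k ∪ {p | p ∈ P \ inv P o k ∧
    Metric.infEDist p (inv P o k) = lab P o k} := rfl

theorem newp_succ (k : ℕ) : newp P o (k + 1) =
    {p | p ∈ P \ inv P o k ∧ Metric.infEDist p (inv P o k) = lab P o k} := by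
  ext p
  change p ∈ inv P o (k + 1) \ inv P o k ↔ _
  rw [inv_succ]
  constructor
  · rintro ⟨h1 | h1, h2⟩
    · exact absurd h1 h2
    · exact h1
  · intro h
    exact ⟨Or.inr h, h.1.2⟩

theorem lab_le {k : ℕ} {q : Eu d} (hq : q ∈ P \ inv P o k) :
    lab P o k ≤ Metric.infEDist q (inv P o k) := iInf₂_le q hq

theorem o_mem (k : ℕ) : o ∈ inv P o k := by
  induction k with
  | zero => exact rfl
  | succ k ih =>
    rw [inv]
    exact Or.inl ih

theorem inv_mono {j k : ℕ} (h : j ≤ k) : inv P o j ⊆ inv P o k := by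
  induction h with
  | refl => exact Subset.rfl
  | step _ ih =>
    refine ih.trans ?_
    rw [inv]
    exact subset_union_left

theorem newp_sub_inv (i : ℕ) : newp P o i ⊆ inv P o i := by
  cases i with
  | zero => exact Subset.rfl
  | succ i => exact sdiff_subset

theorem newp_sub (i : ℕ) : newp P o i ⊆ insert o P := by
  cases i with
  | zero =>
    intro p hp
    exact Or.inl hp
  | succ i =>
    rw [newp_succ]
    intro p hp
    exact Or.inr hp.1.1

theorem exists_newp {i : ℕ} {a : Eu d} (ha : a ∈ inv P o i) : ∃ l ≤ i, a ∈ newp P o l := by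
  induction i with
  | zero => exact ⟨0, le_refl _, ha⟩
  | succ i ih =>
    by_cases h : a ∈ inv P o i
    · obtain ⟨l, hl, hal⟩ := ih h
      exact ⟨l, hl.trans (Nat.le_succ i), hal⟩
    · exact ⟨i + 1, le_refl _, ha, h⟩

theorem newp_disj {i l : ℕ} {p : Eu d} (hi : p ∈ newp P o i) (hl : p ∈ newp P o l) : i = l := by
  have key : ∀ i l : ℕ, i < l → p ∈ newp P o i → p ∈ newp P o l → False := by
    intro i l hil h1 h2
    obtain ⟨l', rfl⟩ : ∃ l', l = l' + 1 := ⟨l - 1, by omega⟩
    exact h2.2 (inv_mono (Nat.lt_succ_iff.1 hil) (newp_sub_inv i h1))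
  rcases lt_trichotomy i l with h | h | h
  · exact (key i l h hi hl).elim
  · exact h
  · exact (key l i h hl hi).elim

/-- the points invaded after the attempt `j` and before the next one are in the cluster of a
new point of step `j` -/
theorem pond_con (hfin : ∀ k, (inv P o k).Finite) {j : ℕ} (hatt : att P o j) :
    ∀ i, j < i → (∀ l, j < l → l ≤ i → ¬ att P o l) → ∀ p ∈ newp P o i,
      ∃ z ∈ newp P o j, p ∈ cl (ad 1) (P \ inv P o j) z ∧ Con (ad 1) (P \ inv P o j) z p := by
  intro i
  induction i using Nat.strong_induction_on with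
  | _ i ih =>
    intro hji hno p hp
    obtain ⟨i', rfl⟩ : ∃ i', i = i' + 1 := ⟨i - 1, by omega⟩
    rw [newp_succ] at hp
    obtain ⟨⟨hpP, hpi⟩, hpe⟩ := hp
    have hlab : lab P o i' ≤ 1 := not_lt.1 (hno (i' + 1) hji (le_refl _))
    obtain ⟨a, ha, hae⟩ := (hfin i').isCompact.exists_infEDist_eq_edist ⟨o, o_mem i'⟩ p
    have hda : edist p a ≤ 1 := by
      rw [← hae, hpe]
      exact hlab
    have had : ad 1 a p := by
      unfold ad
      rw [dist_comm]
      rw [edist_dist] at hda
      exact ENNReal.ofReal_le_one.1 hda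
    have hpj : p ∈ P \ inv P o j := ⟨hpP, fun h => hpi (inv_mono (Nat.lt_succ_iff.1 hji) h)⟩
    obtain ⟨l, hl, hal⟩ := exists_newp ha
    rcases lt_trichotomy l j with h | h | h
    · exfalso
      obtain ⟨j', rfl⟩ : ∃ j', j = j' + 1 := ⟨j - 1, by omega⟩
      have h1 : 1 < lab P o j' := hatt
      have h2 : lab P o j' ≤ Metric.infEDist p (inv P o j') :=
        lab_le ⟨hpP, fun h' => hpi (inv_mono (by omega) h')⟩
      have h3 : Metric.infEDist p (inv P o j') ≤ edist p a :=
        Metric.infEDist_le_edist_of_mem (inv_mono (by omega) (newp_sub_inv l hal))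
      exact absurd (h2.trans (h3.trans hda)) (not_le.2 h1)
    · subst h
      refine ⟨a, hal, ?_, ⟨a, Relation.ReflTransGen.refl, had⟩⟩
      exact Relation.ReflTransGen.single ⟨had, hpj⟩
    · obtain ⟨z, hz, hza, -⟩ := ih l (by omega) h (fun l' h1 h2 => hno l' h1 (by omega)) a hal
      exact ⟨z, hz, Relation.ReflTransGen.tail hza ⟨had, hpj⟩, ⟨a, hza, had⟩⟩

end

/-- Module POND. -/
theorem pond (hinv : InvDStatement) : PondStatement := by
  intro d P o th n f hP ho
  classical
  have hLF : LF P := fun A _ => hP.inter_of_left A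
  obtain ⟨h1, h2, -⟩ := hinv d P P o hLF hLF
  have hfin : ∀ k, (inv P o k).Finite := fun k => (h1 k).2.2
  have hwet : ∀ k, P \ wet P o k = P \ inv P o k := by
    intro k
    have h3 := h2 ho k
    ext p
    constructor
    · rintro ⟨hp, hw⟩
      refine ⟨hp, fun hi => hw ?_⟩
      have : p ∈ P ∩ wet P o k := by
        rw [h3]
        exact ⟨hi, fun h => ho (by rw [← (h : p = o)]; exact hp)⟩
      exact this.2
    · rintro ⟨hp, hi⟩
      refine ⟨hp, fun hw => hi ?_⟩
      have : p ∈ inv P o k \ {o} := by
        rw [← h3]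
        exact ⟨hp, hw⟩
      exact this.1
  set T : Finset (Eu d) := insert o hP.toFinset with hT
  have hTs : insert o P = (T : Set (Eu d)) := by
    rw [hT, Finset.coe_insert, Set.Finite.coe_toFinset]
  have hPT : P ⊆ (T : Set (Eu d)) := by
    rw [← hTs]
    exact subset_insert o P
  have hnT : ∀ i, newp P o i ⊆ (T : Set (Eu d)) := fun i => by
    rw [← hTs]
    exact newp_sub i
  have hnn : ∀ i g, nnew P o i g = ∑ p ∈ T, ind (p ∈ newp P o i) * g p := fun i g =>
    tsum_sub T _ (hnT i) g
  set J : ℕ → ℕ := fun i => Nat.findGreatest (att P o) i with hJ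
  have hJle : ∀ i, J i ≤ i := fun i => Nat.findGreatest_le i
  have hJatt : ∀ i, att P o (J i) := fun i =>
    Nat.findGreatest_spec (P := att P o) (Nat.zero_le i) trivial
  have hJgr : ∀ i l, J i < l → l ≤ i → ¬ att P o l := fun i l h1 h2 =>
    Nat.findGreatest_is_greatest h1 h2
  have hgood : ∀ i j, j ≤ i → good th P o i → good th P o j := fun i j hji h l hl =>
    h l (lt_of_lt_of_le hl hji)
  -- the bound for one attempt
  have key : ∀ j ∈ Finset.range n,
      ∑ i ∈ Finset.range n, ind (J i = j ∧ good th P o i) * nnew P o i f ≤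
        ind (att P o j ∧ good th P o j) * nnew P o j (fun z => f z +
          ∑' p : (P \ wet P o j : Set (Eu d)), ind (Con (ad 1) (P \ wet P o j) z p) * f p) := by
    intro j hj
    by_cases hag : att P o j ∧ good th P o j
    · rw [ind_of hag, one_mul, hwet j]
      have e1 : nnew P o j (fun z => f z +
          ∑' p : (P \ inv P o j : Set (Eu d)), ind (Con (ad 1) (P \ inv P o j) z p) * f p) =
          nnew P o j f + ∑ p ∈ T, f p * (ind (p ∈ P \ inv P o j) *
            ∑ z ∈ T, ind (z ∈ newp P o j) * ind (Con (ad 1) (P \ inv P o j) z p)) := by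
        rw [hnn, hnn]
        simp only [mul_add, Finset.sum_add_distrib]
        congr 1
        have e2 : ∀ z, ∑' p : (P \ inv P o j : Set (Eu d)),
            ind (Con (ad 1) (P \ inv P o j) z p) * f p =
            ∑ p ∈ T, ind (p ∈ P \ inv P o j) * (ind (Con (ad 1) (P \ inv P o j) z p) * f p) :=
          fun z => tsum_sub T _ (sdiff_subset.trans hPT)
            fun p => ind (Con (ad 1) (P \ inv P o j) z p) * f p
        simp only [e2, Finset.mul_sum]
        rw [Finset.sum_comm]
        refine Finset.sum_congr rfl fun p _ => Finset.sum_congr rfl fun z _ => ?_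
        ring
      rw [e1]
      have e3 : ∀ i ∈ Finset.range n, ind (J i = j ∧ good th P o i) * nnew P o i f ≤
          ind (i = j) * nnew P o i f + ind (J i = j ∧ i ≠ j) * nnew P o i f := by
        intro i _
        rw [← add_mul]
        refine mul_le_mul_left ?_ _
        refine (ind_mono (q := i = j ∨ (J i = j ∧ i ≠ j)) ?_).trans (ind_or_le _ _)
        intro h
        by_cases hij : i = j
        · exact Or.inl hij
        · exact Or.inr ⟨h.1, hij⟩
      refine (Finset.sum_le_sum e3).trans ?_
      rw [Finset.sum_add_distrib]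
      refine add_le_add ?_ ?_
      · rw [Finset.sum_eq_single j]
        · exact mul_le_of_le_one_left zero_le (ind_le_one _)
        · intro i _ hij
          rw [ind_not hij, zero_mul]
        · intro h
          exact absurd hj h
      · have e4 : ∑ i ∈ Finset.range n, ind (J i = j ∧ i ≠ j) * nnew P o i f =
            ∑ p ∈ T, f p * ∑ i ∈ Finset.range n, ind ((J i = j ∧ i ≠ j) ∧ p ∈ newp P o i) := by
          simp only [hnn, Finset.mul_sum]
          rw [Finset.sum_comm]
          refine Finset.sum_congr rfl fun p _ => Finset.sum_congr rfl fun i _ => ?_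
          rw [ind_and (J i = j ∧ i ≠ j)]
          ring
        rw [e4]
        refine Finset.sum_le_sum fun p hp => mul_le_mul' le_rfl ?_
        by_cases hex : ∃ i₀ ∈ Finset.range n, (J i₀ = j ∧ i₀ ≠ j) ∧ p ∈ newp P o i₀
        · obtain ⟨i₀, hi₀, ⟨hJi, hne⟩, hpn⟩ := hex
          have e5 : ∑ i ∈ Finset.range n, ind ((J i = j ∧ i ≠ j) ∧ p ∈ newp P o i) ≤ 1 := by
            rw [Finset.sum_eq_single i₀]
            · exact ind_le_one _
            · intro i _ hii
              exact ind_not fun h => hii (newp_disj h.2 hpn)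
            · intro h
              exact absurd hi₀ h
          refine e5.trans ?_
          have hji : j < i₀ := lt_of_le_of_ne (hJi ▸ hJle i₀) (Ne.symm hne)
          obtain ⟨z, hz, -, hcon⟩ := pond_con hfin hag.1 i₀ hji
            (fun l h3 h4 => hJgr i₀ l (by rw [hJi]; exact h3) h4) p hpn
          have hpP : p ∈ P \ inv P o j := by
            obtain ⟨i', rfl⟩ : ∃ i', i₀ = i' + 1 := ⟨i₀ - 1, by omega⟩
            rw [newp_succ] at hpn
            exact ⟨hpn.1.1, fun h => hpn.1.2 (inv_mono (Nat.lt_succ_iff.1 hji) h)⟩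
          rw [ind_of hpP, one_mul]
          have hzT : z ∈ T := by
            have := hnT j hz
            exact_mod_cast this
          refine le_trans ?_ (Finset.single_le_sum (fun _ _ => zero_le) hzT)
          rw [ind_of hz, ind_of hcon, one_mul]
        · push Not at hex
          rw [Finset.sum_eq_zero]
          · exact zero_le
          · intro i hi
            exact ind_not fun h => hex i hi h.1 h.2
    · rw [ind_not hag, zero_mul, Finset.sum_eq_zero]
      intro i _
      rw [ind_not, zero_mul]
      rintro ⟨rfl, hg⟩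
      exact hag ⟨hJatt i, hgood i _ (hJle i) hg⟩
  unfold occ
  calc ∑ i ∈ Finset.range n, ind (good th P o i) * nnew P o i f
      ≤ ∑ i ∈ Finset.range n, ∑ j ∈ Finset.range n,
          ind (J i = j ∧ good th P o i) * nnew P o i f := by
        refine Finset.sum_le_sum fun i hi => ?_
        have hJi : J i ∈ Finset.range n :=
          Finset.mem_range.2 (lt_of_le_of_lt (hJle i) (Finset.mem_range.1 hi))
        refine le_trans ?_ (Finset.single_le_sum
          (f := fun j => ind (J i = j ∧ good th P o i) * nnew P o i f) (fun _ _ => zero_le) hJi)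
        exact mul_le_mul_left (ind_mono fun h => ⟨rfl, h⟩) (nnew P o i f)
    _ = ∑ j ∈ Finset.range n, ∑ i ∈ Finset.range n,
          ind (J i = j ∧ good th P o i) * nnew P o i f := Finset.sum_comm
    _ ≤ _ := Finset.sum_le_sum key

end Pool.Agent.Lib.MP_5349a4_pr.H96
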